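import Mathlib
import Pool.Agent.Helper71.UniMain

namespace Pool.Agent.Results.MP_afdbb1_co.NotLogConcave

open Pool.Agent.Helper71.Uni

/-- There are `n` and two `n`-leaf phylogenetic trees `T`, `F` for which the numbers of partitions
with `k` classes induced by both trees do not form a log-concave sequence. -/
theorem result :
    ∃ (n : ℕ) (V W : Type) (_ : Fintype V) (_ : Fintype W)
      (T : SimpleGraph V) (F : SimpleGraph W) (lT : Fin n → V) (lF : Fin n → W),
      IsPhylo T lT ∧ IsPhylo F lF ∧
      ∃ k, 1 < k ∧ k < n ∧
        commonCount T lT F lF k ^ 2 <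
          commonCount T lT F lF (k - 1) * commonCount T lT F lF (k + 1) :=
  ⟨86 + 2, _, _, _, _, _, _, _, _, phyloT, phyloF, not_logconcave⟩

end Pool.Agent.Results.MP_afdbb1_co.NotLogConcave
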